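import Pool.Agent.H43.Dlt3

namespace Pool.Agent.Results.MP_840fa9_an.Yes

open Set MeasureTheory

/-- Admissible intervals. -/
def Adm (J : Set ℝ) : Prop := (∃ α, J = Ici α) ∨ (∃ α, J = Ioi α) ∨ J = univ

/-- The chirp `exp (i t ^ 2)`. -/
noncomputable def g (t : ℝ) : ℂ := Complex.exp (Complex.I * (t : ℂ) ^ 2)

variable {X : Type*} [NormedAddCommGroup X] [NormedSpace ℂ X]

/-- The restriction of `h` to `J` lies in `UC (J, X) + g UC (J, X)`. -/
def InA (J : Set ℝ) (h : ℝ → X) : Prop :=
  ∃ u v : ℝ → X, UniformContinuousOn u J ∧ UniformContinuousOn v J ∧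
    ∀ t ∈ J, h t = u t + g t • v t

/-- Bochner integrable on every compact subinterval of `J`. -/
def L1loc (J : Set ℝ) (f : ℝ → X) : Prop := ∀ a ∈ J, ∀ b ∈ J, IntegrableOn f (Icc a b)

/-- The difference operator. -/
def Dif (a : ℝ) (f : ℝ → X) (t : ℝ) : X := f (t + a) - f t

/-- The mean operator. -/
noncomputable def M (h : ℝ) (f : ℝ → X) (t : ℝ) : X := (1 / h) • ∫ s in t..t + h, f s

theorem result (X : Type*) [NormedAddCommGroup X] [NormedSpace ℂ X] [CompleteSpace X]
    (J : Set ℝ) (hJ : Adm J) (f : ℝ → X) (hf : L1loc J f) (hA : ∀ a > 0, InA J (Dif a f))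
    (h : ℝ) (hh : 0 < h) : InA J fun t => f t - M h f t := by
  have hU : IsUpperSet J := by
    rcases hJ with ⟨α, rfl⟩ | ⟨α, rfl⟩ | rfl
    exacts [isUpperSet_Ici α, isUpperSet_Ioi α, isUpperSet_univ]
  obtain ⟨u, v, hu, hv, he⟩ := Pool.Agent.H43.Dlt.inA_integral hU hf hA hh.le
  have hc := uniformContinuous_const_smul (X := X) (-(1 / h) : ℝ)
  refine ⟨_, _, hc.comp_uniformContinuousOn hu, hc.comp_uniformContinuousOn hv, fun t ht => ?_⟩
  have e1 : (∫ s in (0:ℝ)..h, (f (t + s) - f t)) = u t + g t • v t := he t ht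
  have h1 : IntervalIntegrable f volume t (t + h) :=
    (intervalIntegrable_iff_integrableOn_Icc_of_le (by linarith)).2
      (hf t ht _ (hU (by linarith) ht))
  have h2 := h1.comp_add_left t
  rw [sub_self, add_sub_cancel_left] at h2
  rw [intervalIntegral.integral_sub h2 intervalIntegrable_const,
    intervalIntegral.integral_comp_add_left, add_zero, intervalIntegral.integral_const,
    sub_zero] at e1
  simp only [Function.comp, M]
  rw [smul_comm (g t), ← smul_add, ← e1, smul_sub, smul_smul, neg_mul,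
    one_div_mul_cancel hh.ne', neg_smul, neg_smul, one_smul]
  abel

end Pool.Agent.Results.MP_840fa9_an.Yes
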